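import Pool.Agent.helper76.DP.Spec

/-!
# Row CRP of project DP (MP_bf63dc_nt): units modulo a prime power
-/

set_option autoImplicit false

namespace Pool.Agent.DP

open Finset
open Pool.Agent.FR (mean Eig)
open Pool.Agent.AT (Qk Pair)
open Pool.Agent.HF (Om TC NoTC)
open Pool.Agent.IT (Ad)

theorem CRP_unit {p : ℕ} (hp : p.Prime) (e : ℕ) {x : ℤ} (hx : ¬ (p : ℤ) ∣ x) : IsUnit (x : ZMod (p ^ e)) := by
  rw [ZMod.coe_int_isUnit_iff_isCoprime]
  push_cast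
  refine IsCoprime.pow_left ?_
  exact (Nat.prime_iff_prime_int.1 hp).coprime_iff_not_dvd.2 hx

/-- the good integers -/
def CRP_T (p e a : ℕ) (κ : ℤ) : Finset ℕ := (range (p ^ e)).filter fun n => ¬ (p : ℤ) ∣ (n : ℤ) ∧ ¬ (p : ℤ) ∣ (a : ℤ) * n - κ

/-- the good residues -/
def CRP_G (p a : ℕ) (κ : ℤ) : Finset ℕ := (range p).filter fun n => ¬ (p : ℤ) ∣ (n : ℤ) ∧ ¬ (p : ℤ) ∣ (a : ℤ) * n - κ

theorem CRP_A {p : ℕ} (hp : p.Prime) (e a b : ℕ) [NeZero (p ^ e)] (κ : ℤ) (hb : ¬ p ∣ b) : (CRP_T p e a κ).card ≤ Nu (p ^ e) a b (κ : ZMod (p ^ e)) := by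
  unfold Nu
  refine card_le_card_of_surjOn (fun q : (ZMod (p ^ e))ˣ × (ZMod (p ^ e))ˣ => ((q.1 : (ZMod (p ^ e))ˣ) : ZMod (p ^ e)).val) ?_
  intro n hn
  rw [mem_coe] at hn
  unfold CRP_T at hn
  rw [mem_filter, mem_range] at hn
  obtain ⟨hlt, h1, h2⟩ := hn
  have hb' : ¬ (p : ℤ) ∣ (b : ℤ) := fun h => hb (by exact_mod_cast h)
  obtain ⟨u, hu⟩ := CRP_unit hp e h1
  obtain ⟨v, hv⟩ := CRP_unit hp e h2
  obtain ⟨w, hw⟩ := CRP_unit hp e hb'
  push_cast at hu hv hw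
  refine ⟨(u, w⁻¹ * v), ?_, ?_⟩
  · rw [mem_coe, mem_filter]
    refine ⟨mem_univ _, ?_⟩
    change (a : ZMod (p ^ e)) * (u : ZMod (p ^ e)) - (b : ZMod (p ^ e)) * ((w⁻¹ * v : (ZMod (p ^ e))ˣ) : ZMod (p ^ e)) = (κ : ZMod (p ^ e))
    rw [Units.val_mul, ← hw, ← mul_assoc, Units.mul_inv, one_mul, hu, hv]
    ring
  · change (u : ZMod (p ^ e)).val = n
    rw [hu, ZMod.val_natCast_of_lt hlt]

theorem CRP_B {p : ℕ} (hp : p.Prime) (e a : ℕ) (he : 1 ≤ e) (κ : ℤ) : p ^ (e - 1) * (CRP_G p a κ).card ≤ (CRP_T p e a κ).card := by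
  have h1 : (range (p ^ (e - 1)) ×ˢ CRP_G p a κ).card = p ^ (e - 1) * (CRP_G p a κ).card := by
    rw [card_product, card_range]
  rw [← h1]
  refine card_le_card_of_injOn (fun q : ℕ × ℕ => q.2 + p * q.1) ?_ ?_
  · rintro ⟨s, t⟩ hq
    rw [mem_coe, mem_product, mem_range] at hq
    obtain ⟨hs, ht⟩ := hq
    unfold CRP_G at ht
    rw [mem_filter, mem_range] at ht
    obtain ⟨ht1, ht2, ht3⟩ := ht
    rw [mem_coe]
    unfold CRP_T
    rw [mem_filter, mem_range]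
    refine ⟨?_, ?_, ?_⟩
    · change t + p * s < p ^ e
      have h2 : s + 1 ≤ p ^ (e - 1) := hs
      have h3 : p * (s + 1) ≤ p * p ^ (e - 1) := Nat.mul_le_mul_left p h2
      rw [← pow_succ', Nat.sub_add_cancel he] at h3
      have : p * (s + 1) = p * s + p := by ring
      omega
    · intro hd
      apply ht2
      change (p : ℤ) ∣ ((t + p * s : ℕ) : ℤ) at hd
      push_cast at hd
      exact (dvd_add_left (Dvd.intro _ rfl)).1 hd
    · intro hd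
      apply ht3
      change (p : ℤ) ∣ (a : ℤ) * ((t + p * s : ℕ) : ℤ) - κ at hd
      push_cast at hd
      have h4 : (a : ℤ) * (t + p * s) - κ = ((a : ℤ) * t - κ) + p * (a * s) := by ring
      rw [h4] at hd
      exact (dvd_add_left (Dvd.intro _ rfl)).1 hd
  · rintro ⟨s, t⟩ hq ⟨s', t'⟩ hq' heq
    rw [mem_coe, mem_product] at hq hq'
    have ht : t < p := by
      have := hq.2
      unfold CRP_G at this
      exact mem_range.1 (mem_filter.1 this).1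
    have ht' : t' < p := by
      have := hq'.2
      unfold CRP_G at this
      exact mem_range.1 (mem_filter.1 this).1
    change t + p * s = t' + p * s' at heq
    have h5 : t = t' := by
      have := congrArg (fun x => x % p) heq
      simp only [Nat.add_mul_mod_self_left, Nat.mod_eq_of_lt ht, Nat.mod_eq_of_lt ht'] at this
      exact this
    subst h5
    have h6 : p * s = p * s' := by omega
    rw [Nat.eq_of_mul_eq_mul_left hp.pos h6]

theorem CRP_ndvd {p n : ℕ} (h1 : 1 ≤ n) (h2 : n < p) : ¬ (p : ℤ) ∣ (n : ℤ) := by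
  intro h
  have : p ∣ n := by exact_mod_cast h
  exact absurd (Nat.le_of_dvd h1 this) (by omega)

theorem CRP_C1 {p a : ℕ} {κ : ℤ} (h : (p ∣ a ∧ ¬ (p : ℤ) ∣ κ) ∨ (p = 2 ∧ ¬ p ∣ a ∧ (p : ℤ) ∣ κ)) : p - 1 ≤ (CRP_G p a κ).card := by
  rcases h with ⟨h1, h2⟩ | ⟨h1, h2, h3⟩
  · have h3 : (Ico 1 p).card = p - 1 := Nat.card_Ico 1 p
    rw [← h3]
    refine card_le_card ?_
    intro n hn
    rw [mem_Ico] at hn
    unfold CRP_G
    rw [mem_filter, mem_range]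
    refine ⟨hn.2, CRP_ndvd hn.1 hn.2, ?_⟩
    intro hd
    apply h2
    have h4 : (p : ℤ) ∣ (a : ℤ) * n := Dvd.dvd.mul_right (by exact_mod_cast h1) _
    exact (dvd_sub_right h4).1 hd
  · subst h1
    have : 1 ∈ CRP_G 2 a κ := by
      unfold CRP_G
      rw [mem_filter, mem_range]
      refine ⟨by norm_num, by norm_num, ?_⟩
      intro hd
      apply h2
      have h4 : ((2 : ℕ) : ℤ) ∣ (a : ℤ) * ((1 : ℕ) : ℤ) := (dvd_sub_left h3).1 hd
      have h5 : ((2 : ℕ) : ℤ) ∣ (a : ℤ) := by simpa using h4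
      exact_mod_cast h5
    exact card_pos.2 ⟨1, this⟩

theorem CRP_C2 {p a : ℕ} (hp : p.Prime) (κ : ℤ) (ha : ¬ p ∣ a) : p - 2 ≤ (CRP_G p a κ).card := by
  have h1 : Ico 1 p \ CRP_G p a κ ⊆ (Ico 1 p).filter fun n : ℕ => (p : ℤ) ∣ (a : ℤ) * (n : ℤ) - κ := by
    intro n hn
    rw [mem_sdiff, mem_Ico] at hn
    obtain ⟨⟨hn1, hn2⟩, hn3⟩ := hn
    rw [mem_filter, mem_Ico]
    refine ⟨⟨hn1, hn2⟩, ?_⟩
    by_contra hcon
    apply hn3
    unfold CRP_G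
    rw [mem_filter, mem_range]
    exact ⟨hn2, CRP_ndvd hn1 hn2, hcon⟩
  have h2 : ((Ico 1 p).filter fun n : ℕ => (p : ℤ) ∣ (a : ℤ) * (n : ℤ) - κ).card ≤ 1 := by
    rw [card_le_one]
    intro n hn n' hn'
    rw [mem_filter, mem_Ico] at hn hn'
    obtain ⟨⟨hn1, hn2⟩, hn3⟩ := hn
    obtain ⟨⟨hn1', hn2'⟩, hn3'⟩ := hn'
    have h3 : (p : ℤ) ∣ (a : ℤ) * ((n : ℤ) - n') := by
      have := dvd_sub hn3 hn3'
      have h4 : (a : ℤ) * n - κ - (a * n' - κ) = (a : ℤ) * ((n : ℤ) - n') := by ring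
      rwa [h4] at this
    rcases (Nat.prime_iff_prime_int.1 hp).dvd_or_dvd h3 with h4 | h4
    · exact absurd (by exact_mod_cast h4) ha
    · have h5 : (n : ℤ) - n' = 0 := by
        refine Int.eq_zero_of_abs_lt_dvd h4 ?_
        rw [abs_lt]
        constructor <;> omega
      omega
  have h3 := card_le_card h1
  have h4 := card_le_card_sdiff_add_card (s := Ico 1 p) (t := CRP_G p a κ)
  rw [Nat.card_Ico] at h4
  omega

theorem CRP_swap (Q a b : ℕ) [NeZero Q] (κ : ZMod Q) : Nu Q a b κ = Nu Q b a (-κ) := by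
  unfold Nu
  refine card_equiv (Equiv.prodComm _ _) ?_
  rintro ⟨z, z'⟩
  rw [mem_filter, mem_filter]
  constructor
  · rintro ⟨-, h⟩
    refine ⟨mem_univ _, ?_⟩
    change (b : ZMod Q) * z' - a * z = -κ
    rw [← h]
    ring
  · rintro ⟨-, h⟩
    refine ⟨mem_univ _, ?_⟩
    change (b : ZMod Q) * z' - a * z = -κ at h
    change (a : ZMod Q) * z - b * z' = κ
    rw [← neg_eq_iff_eq_neg.2 h.symm.symm]
    ring

theorem CRP_main (p e a b : ℕ) [NeZero (p ^ e)] (κ : ℤ) (hp : p.Prime) (he : 1 ≤ e) (hb : ¬ p ∣ b) (h1 : p ∣ a * b → ¬ (p : ℤ) ∣ κ)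
    (h2 : p = 2 → ¬ 2 ∣ a * b → (2 : ℤ) ∣ κ) :
    (Nat.totient (p ^ e) : ℝ) ^ 2 * (if p ∣ 2 * a * b then (p : ℝ) / (p - 1) else 1 - 1 / ((p : ℝ) - 1) ^ 2) ≤ ((p ^ e : ℕ) : ℝ) * Nu (p ^ e) a b (κ : ZMod (p ^ e)) := by
  have hAB : p ^ (e - 1) * (CRP_G p a κ).card ≤ Nu (p ^ e) a b (κ : ZMod (p ^ e)) := (CRP_B hp e a he κ).trans (CRP_A hp e a b κ hb)
  have hABr : (p : ℝ) ^ (e - 1) * ((CRP_G p a κ).card : ℝ) ≤ (Nu (p ^ e) a b (κ : ZMod (p ^ e)) : ℝ) := by exact_mod_cast hAB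
  have hp1 : (1 : ℝ) < p := by exact_mod_cast hp.one_lt
  have hp0 : (0 : ℝ) < p := by linarith
  have hq0 : (0 : ℝ) < (p : ℝ) ^ (e - 1) := by positivity
  have htot : (Nat.totient (p ^ e) : ℝ) = (p : ℝ) ^ (e - 1) * (p - 1) := by
    rw [Nat.totient_prime_pow hp (by omega)]
    push_cast
    rw [Nat.cast_sub hp.one_lt.le]
    push_cast
    ring
  have hpe : ((p ^ e : ℕ) : ℝ) = (p : ℝ) ^ (e - 1) * p := by
    push_cast
    rw [← pow_succ, Nat.sub_add_cancel he]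
  have hpm : (p : ℝ) - 1 ≠ 0 := by linarith
  by_cases hc : (p ∣ a ∧ ¬ (p : ℤ) ∣ κ) ∨ (p = 2 ∧ ¬ p ∣ a ∧ (p : ℤ) ∣ κ)
  · have h3 : p ∣ 2 * a * b := by
      rcases hc with ⟨h, -⟩ | ⟨h, -, -⟩
      · exact Dvd.dvd.mul_right (Dvd.dvd.mul_left h 2) b
      · rw [h, mul_assoc]
        exact Dvd.intro _ rfl
    rw [if_pos h3, htot, hpe]
    have h4 : ((p - 1 : ℕ) : ℝ) ≤ ((CRP_G p a κ).card : ℝ) := by exact_mod_cast CRP_C1 hc
    rw [Nat.cast_sub hp.one_lt.le, Nat.cast_one] at h4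
    calc ((p : ℝ) ^ (e - 1) * (p - 1)) ^ 2 * (p / (p - 1)) = (p : ℝ) ^ (e - 1) * p * ((p : ℝ) ^ (e - 1) * (p - 1)) := by
          field_simp
      _ ≤ (p : ℝ) ^ (e - 1) * p * ((p : ℝ) ^ (e - 1) * ((CRP_G p a κ).card : ℝ)) := by gcongr
      _ ≤ _ := mul_le_mul_of_nonneg_left hABr (by positivity)
  · push Not at hc
    obtain ⟨hc1, hc2⟩ := hc
    have ha : ¬ p ∣ a := by
      intro ha
      exact h1 (Dvd.dvd.mul_right ha b) (hc1 ha)
    have hab : ¬ p ∣ a * b := by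
      intro h
      rcases hp.dvd_mul.1 h with h | h
      · exact ha h
      · exact hb h
    have hp2 : p ≠ 2 := by
      intro h
      subst h
      exact hc2 rfl ha (by exact_mod_cast h2 rfl hab)
    have h3 : ¬ p ∣ 2 * a * b := by
      intro h
      rw [mul_assoc] at h
      rcases hp.dvd_mul.1 h with h | h
      · exact hp2 ((Nat.prime_dvd_prime_iff_eq hp Nat.prime_two).1 h)
      · exact hab h
    rw [if_neg h3, htot, hpe]
    have h2p : 2 ≤ p := hp.two_le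
    have h4 : ((p - 2 : ℕ) : ℝ) ≤ ((CRP_G p a κ).card : ℝ) := by exact_mod_cast CRP_C2 hp κ ha
    rw [Nat.cast_sub h2p, Nat.cast_ofNat] at h4
    calc ((p : ℝ) ^ (e - 1) * (p - 1)) ^ 2 * (1 - 1 / (p - 1) ^ 2) = (p : ℝ) ^ (e - 1) * p * ((p : ℝ) ^ (e - 1) * (p - 2)) := by
          field_simp
          ring
      _ ≤ (p : ℝ) ^ (e - 1) * p * ((p : ℝ) ^ (e - 1) * ((CRP_G p a κ).card : ℝ)) := by gcongr
      _ ≤ _ := mul_le_mul_of_nonneg_left hABr (by positivity)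

theorem CRP : CRP_stmt := by
  intro p e a b _ κ hp he ha hb hab h1 h2
  by_cases hpb : p ∣ b
  · have hpa : ¬ p ∣ a := by
      intro hpa
      have := Nat.dvd_gcd hpa hpb
      rw [hab] at this
      exact hp.one_lt.ne' (Nat.dvd_one.1 this)
    have key := CRP_main p e b a (-κ) hp he hpa (by rw [mul_comm b a, dvd_neg]; exact h1) (by rw [mul_comm b a, dvd_neg]; exact h2)
    have h3 : 2 * b * a = 2 * a * b := by ring
    rw [h3] at key
    have h4 := CRP_swap (p ^ e) b a ((-κ : ℤ) : ZMod (p ^ e))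
    rw [h4] at key
    have h5 : -((-κ : ℤ) : ZMod (p ^ e)) = (κ : ZMod (p ^ e)) := by
      push_cast
      ring
    rw [h5] at key
    exact key
  · exact CRP_main p e a b κ hp he hpb h1 h2

end Pool.Agent.DP
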